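import Mathlib
import Pool.Agent.Q90.NoDil2

/-!
# MP_0a86e9_an: three commuting unital CP maps with no dilation at all

The definitions (`power`, `up`, `down`, `IsDilation`, `HasNoDilation`) are in `Pool.Agent.Q90.NoDilDefs`;
`A →CP A` is Mathlib's type of completely positive linear maps.

The example: `H = ℓ²(S₄)`, `λ` the regular representation and
`T_i(a) = (1/2) (λ(u)* a λ(u) + λ(u')* a λ(u'))` for three pairs `{u, u'}` of 3-cycles, with images
of `0, 1, 2, 3` equal to
`U₀ = {(1,2,0,3), (2,1,3,0)}`, `U₁ = {(2,0,1,3), (0,2,3,1)}`, `U₂ = {(0,3,1,2), (3,0,2,1)}`.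
For `i ≠ j` the four products of `U_i U_j` are different and `U_i U_j = U_j U_i`, so the maps
commute; but the two ways of reordering a product `w v u` (`w ∈ U₂`, `v ∈ U₁`, `u ∈ U₀`) into the
order `U₀, U₁, U₂` by these exchange relations give different results.

Proof.  Let `θ` be a dilation with commuting `θ₀, θ₁, θ₂`.  As `T_i` is unital, `p = θ_i(p) p`.
The bimodule `θ_i(p) 𝓑 p` over the matrix algebra `p 𝓑 p` gives elements `s_u ∈ 𝓑`, `u ∈ U_i`,
with `θ_i(a) s_u = s_u a`, `s_u* s_{u'} = δ p / 2` and `p = ∑ s_u λ(u)`.  Expanding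
`p = θ_i(p) θ_j(θ_i(p)) p` in two ways gives `θ_i(s_v) s_u = θ_j(s_{u'}) s_{v'}` whenever
`v u = u' v'` (`u, u' ∈ U_i`, `v, v' ∈ U_j`), because the `λ(v u)` are linearly independent.  The
triple products `θ₂(θ₁(s_u)) θ₂(s_v) s_w` are non-zero and pairwise orthogonal, but rewriting
`θ₀(θ₁(s_w)) θ₀(s_v) s_u` along the two paths identifies two different ones: a contradiction.
-/

set_option autoImplicit false

namespace Pool.Agent.Results.MP_0a86e9_an.NoDilation

open Q90.NoDil
open scoped CStarAlgebra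

universe u

/-- There are a finite-dimensional Hilbert space `H` and three commuting unital completely positive
maps `T₀, T₁, T₂` on `B(H)` such that the semigroup `T_s = T₀ ^ {s₀} T₁ ^ {s₁} T₂ ^ {s₂}`,
`s ∈ ℕ³`, has no dilation to a semigroup of `*`-endomorphisms of a von Neumann algebra. -/
theorem result : ∃ (ι : Type) (_ : Fintype ι)
    (T : Fin 3 → (BH (EuclideanSpace ℂ ι) →CP BH (EuclideanSpace ℂ ι))),
    IsCommutingUnital T ∧ HasNoDilation.{u} T :=
  ⟨G, inferInstance, TT, ⟨TT_one, TT_comm⟩, fun _ _ _ _ V 𝓑 θ => not_isDilation V 𝓑 θ⟩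

end Pool.Agent.Results.MP_0a86e9_an.NoDilation
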